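import Pool.Agent.helper64.PB.SpecW

set_option autoImplicit false

namespace Pool.Agent.PB

theorem HUP_mono {G : Set Gate} {n : ℕ} {f : BF n} {s s' : ℕ} (h : Size G f s) (hs : s ≤ s') :
    Size G f s' := by
  obtain ⟨l, h1, h2, h3⟩ := h
  exact ⟨l, h1, h2.trans hs, h3⟩

theorem HUP_var (G : Set Gate) (n : ℕ) (j : Fin n) : Size G (fun x : Fin n → Bool => x j) 0 :=
  ⟨[], Prog.nil, le_rfl, Or.inr ⟨j, rfl⟩⟩

/-- families of functions of size `O(s + n)` -/
def HUP_Bd (k : ℕ) (Φ : (n : ℕ) → BF n → BF ((k + 1) * n + (k + 2))) : Prop :=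
  ∃ c : ℕ, ∀ (n : ℕ) (h : BF n), 1 ≤ n → ∀ s, Size std h s → Size std (Φ n h) (c * (s + n))

theorem HUP_comp (hCMP : CMP_stmt) (hDNF : DNF_stmt) (k m : ℕ) (F : BF m)
    (Φ : Fin m → (n : ℕ) → BF n → BF ((k + 1) * n + (k + 2))) (hΦ : ∀ i, HUP_Bd k (Φ i)) :
    HUP_Bd k (fun n h z => F (fun i => Φ i n h z)) := by
  choose c hc using hΦ
  obtain ⟨s0, hs0⟩ := hDNF.1 m F
  refine ⟨s0 + ∑ i, c i, fun n h hn s hs => ?_⟩
  have h1 := hCMP std m _ F (fun i => Φ i n h) s0 (fun i => c i * (s + n)) hs0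
    (fun i => hc i n h hn s hs)
  refine HUP_mono h1 ?_
  rw [add_mul, Finset.sum_mul]
  have h2 : s0 * 1 ≤ s0 * (s + n) := Nat.mul_le_mul_left _ (by omega)
  omega

theorem HUP_two (hCMP : CMP_stmt) (hDNF : DNF_stmt) (k : ℕ) (g : Bool → Bool → Bool)
    (Φ Ψ : (n : ℕ) → BF n → BF ((k + 1) * n + (k + 2))) (hΦ : HUP_Bd k Φ) (hΨ : HUP_Bd k Ψ) :
    HUP_Bd k (fun n h z => g (Φ n h z) (Ψ n h z)) := by
  have h1 := HUP_comp hCMP hDNF k 2 (fun x => g (x 0) (x 1))
    (fun i => if i = 0 then Φ else Ψ) (by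
      intro i
      by_cases hi : i = 0
      · simp only [hi, if_true]
        exact hΦ
      · simp only [hi, if_false]
        exact hΨ)
  exact h1

theorem HUP_const {k : ℕ} (Φ : (n : ℕ) → BF n → BF ((k + 1) * n + (k + 2))) (a : ℕ)
    (h : ∀ n h, Size std (Φ n h) a) : HUP_Bd k Φ := by
  refine ⟨a, fun n f hn s _ => HUP_mono (h n f) ?_⟩
  have h2 : a * 1 ≤ a * (s + n) := Nat.mul_le_mul_left _ (by omega)
  omega

/-- a fixed function of some variables -/
theorem HUP_fix (hCMP : CMP_stmt) (hDNF : DNF_stmt) (m : ℕ) (g : BF m) :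
    ∃ a : ℕ, ∀ (N : ℕ) (v : Fin m → Fin N), Size std (fun z : Fin N → Bool => g (fun j => z (v j))) a := by
  obtain ⟨a, ha⟩ := hDNF.1 m g
  refine ⟨a, fun N v => ?_⟩
  have h1 := hCMP std m N g (fun j z => z (v j)) a (fun _ => 0) ha (fun j => HUP_var std N (v j))
  refine HUP_mono h1 ?_
  simp

theorem HUP_all (hCMP : CMP_stmt) (hDNF : DNF_stmt) (hALA : ALA_stmt) (k : ℕ)
    (Ψ : (n : ℕ) → BF n → Fin n → BF ((k + 1) * n + (k + 2))) (a : ℕ)
    (hΨ : ∀ n h i, Size std (Ψ n h i) a) :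
    HUP_Bd k (fun n h z => decide (∀ i, Ψ n h i z = true)) := by
  obtain ⟨c0, hc0⟩ := hALA std (hDNF.1 2 fAnd)
  refine ⟨c0 + a, fun n h hn s _ => ?_⟩
  have h1 := hCMP std n _ (allAnd n) (fun i => Ψ n h i) (c0 * n) (fun _ => a) (hc0 n hn)
    (fun i => hΨ n h i)
  refine HUP_mono h1 ?_
  rw [Finset.sum_const, Finset.card_univ, Fintype.card_fin, smul_eq_mul]
  nlinarith [Nat.zero_le (c0 * s), Nat.zero_le (a * s)]

theorem HUP (hCMP : CMP_stmt) (hDNF : DNF_stmt) (hALA : ALA_stmt) (_hSUB : SUB_stmt) :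
    HUP_stmt := by
  intro k
  -- the pieces
  have hA : HUP_Bd k (fun n _ z => decide (∀ i, z i = true)) := by
    obtain ⟨c0, hc0⟩ := hALA std (hDNF.1 2 fAnd)
    refine ⟨c0 * (2 * k + 3), fun n h hn s _ => ?_⟩
    refine HUP_mono (hc0 ((k + 1) * n + (k + 2)) (by omega)) ?_
    rw [mul_assoc]
    apply Nat.mul_le_mul_left
    nlinarith [Nat.zero_le ((2 * k + 3) * s), Nat.mul_le_mul_left (k + 2) hn]
  -- a pattern of the last variables
  have hE : ∀ p : Fin (k + 2) → Bool, HUP_Bd k (fun n _ z =>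
      decide (∀ m, z (eH k n (Sum.inr m)) = p m)) := by
    intro p
    obtain ⟨a, ha⟩ := HUP_fix hCMP hDNF (k + 2) (fun y => decide (∀ m, y m = p m))
    exact HUP_const _ a (fun n h => ha _ (fun m => eH k n (Sum.inr m)))
  -- a condition on the blocks
  have hX : ∀ g : BF (k + 1), HUP_Bd k (fun n _ z =>
      decide (∀ i, g (fun j => z (eH k n (Sum.inl (j, i)))) = true)) := by
    intro g
    obtain ⟨a, ha⟩ := HUP_fix hCMP hDNF (k + 1) g
    exact HUP_all hCMP hDNF hALA k (fun n _ i z => g (fun j => z (eH k n (Sum.inl (j, i))))) a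
      (fun n h i => ha _ (fun j => eH k n (Sum.inl (j, i))))
  have hH0 : HUP_Bd k (fun n h z => h (fun i => z (eH k n (Sum.inl (0, i))))) := by
    refine ⟨1, fun n h hn s hs => ?_⟩
    have h1 := hCMP std n _ h (fun i z => z (eH k n (Sum.inl (0, i)))) s (fun _ => 0) hs
      (fun i => HUP_var std _ _)
    refine HUP_mono h1 ?_
    simp
  have hHn : ∀ j : Fin (k + 1), HUP_Bd k (fun n h z =>
      !(h (fun i => !(z (eH k n (Sum.inl (j, i))))))) := by
    intro j
    have h0 : HUP_Bd k (fun n h z => h (fun i => !(z (eH k n (Sum.inl (j, i)))))) := by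
      obtain ⟨a, ha⟩ := HUP_fix hCMP hDNF 1 (fun y => !(y 0))
      refine ⟨a + 1, fun n h hn s hs => ?_⟩
      have h1 := hCMP std n _ h (fun i z => !(z (eH k n (Sum.inl (j, i))))) s (fun _ => a) hs
        (fun i => ha _ (fun _ => eH k n (Sum.inl (j, i))))
      refine HUP_mono h1 ?_
      rw [Finset.sum_const, Finset.card_univ, Fintype.card_fin, smul_eq_mul]
      nlinarith [Nat.zero_le (a * s)]
    exact HUP_two hCMP hDNF k (fun a _ => !a) _ _ h0 h0
  have hB := HUP_two hCMP hDNF k (fun a b => a && b) _ _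
    (HUP_two hCMP hDNF k (fun a b => a && b) _ _
      (hE (fun m => !(decide (m = Fin.last (k + 1)))))
      (hX (fun y => decide (∀ j, y j = y 0)))) hH0
  have hC := HUP_comp hCMP hDNF k (k + 1) (fun y => decide (∃ j, y j = true)) _
    (fun j : Fin (k + 1) => HUP_two hCMP hDNF k (fun a b => a && b) _ _
      (HUP_two hCMP hDNF k (fun a b => a && b) _ _
        (hE (fun m => !(decide (m = j.castSucc))))
        (hX (fun y => decide (∀ j', j' ≠ j → y j' = true)))) (hHn j))
  obtain ⟨c, hc⟩ := HUP_two hCMP hDNF k (fun a b => a || b) _ _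
    (HUP_two hCMP hDNF k (fun a b => a || b) _ _ hA hB) hC
  refine ⟨c, fun n h hn s hs => ?_⟩
  have h1 := hc n h hn s hs
  have h2 : fH k n h = (fun z => (decide (∀ i, z i = true) ||
      (decide (∀ m, z (eH k n (Sum.inr m)) = !(decide (m = Fin.last (k + 1)))) &&
        decide (∀ i, decide (∀ j, z (eH k n (Sum.inl (j, i))) = z (eH k n (Sum.inl (0, i)))) =
          true) && h (fun i => z (eH k n (Sum.inl (0, i)))))) ||
      decide (∃ j : Fin (k + 1), (decide (∀ m, z (eH k n (Sum.inr m)) =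
          !(decide (m = j.castSucc))) &&
        decide (∀ i, decide (∀ j', j' ≠ j → z (eH k n (Sum.inl (j', i))) = true) = true) &&
        !(h (fun i => !(z (eH k n (Sum.inl (j, i))))))) = true)) := by
    funext z
    have e1 : decide (∀ j i, z (eH k n (Sum.inl (j, i))) = z (eH k n (Sum.inl (0, i)))) =
        decide (∀ i, decide (∀ j, z (eH k n (Sum.inl (j, i))) =
          z (eH k n (Sum.inl (0, i)))) = true) := by
      apply decide_eq_decide.2
      constructor
      · intro h3 i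
        exact decide_eq_true (fun j => h3 j i)
      · intro h3 j i
        exact of_decide_eq_true (h3 i) j
    have e2 : decide (∃ j : Fin (k + 1), (∀ m, z (eH k n (Sum.inr m)) =
          !(decide (m = j.castSucc))) ∧
          (∀ j' i, j' ≠ j → z (eH k n (Sum.inl (j', i))) = true) ∧
          h (fun i => !(z (eH k n (Sum.inl (j, i))))) = false) =
        decide (∃ j : Fin (k + 1), (decide (∀ m, z (eH k n (Sum.inr m)) =
          !(decide (m = j.castSucc))) &&
        decide (∀ i, decide (∀ j', j' ≠ j → z (eH k n (Sum.inl (j', i))) = true) = true) &&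
        !(h (fun i => !(z (eH k n (Sum.inl (j, i))))))) = true) := by
      apply decide_eq_decide.2
      refine exists_congr (fun j => ?_)
      rw [Bool.and_eq_true, Bool.and_eq_true, decide_eq_true_iff, decide_eq_true_iff,
        Bool.not_eq_true', and_assoc]
      refine and_congr_right (fun _ => and_congr_left (fun _ => ?_))
      constructor
      · intro h3 i
        exact decide_eq_true (fun j' hj => h3 j' i hj)
      · intro h3 j' i hj
        exact of_decide_eq_true (h3 i) j' hj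
    show (decide (∀ i, z i = true) ||
      (decide (∀ m, z (eH k n (Sum.inr m)) = !(decide (m = Fin.last (k + 1)))) &&
        decide (∀ j i, z (eH k n (Sum.inl (j, i))) = z (eH k n (Sum.inl (0, i)))) &&
          h (fun i => z (eH k n (Sum.inl (0, i))))) ||
      decide (∃ j : Fin (k + 1), (∀ m, z (eH k n (Sum.inr m)) =
          !(decide (m = j.castSucc))) ∧
          (∀ j' i, j' ≠ j → z (eH k n (Sum.inl (j', i))) = true) ∧
          h (fun i => !(z (eH k n (Sum.inl (j, i))))) = false)) = _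
    rw [e1, e2]
  rw [h2]
  exact h1

end Pool.Agent.PB
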