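import Pool.Agent.helper64.PB.SpecF

set_option autoImplicit false

namespace Pool.Agent.PB

open Finset Polynomial

theorem NEG_sum (J : ℕ) : ∑ w ∈ Finset.Icc 1 J, (1 / 2 : ℝ) ^ (w + 1) = 1 / 2 - (1 / 2) ^ (J + 1) := by
  induction J with
  | zero => simp
  | succ J ih =>
    rw [Finset.sum_Icc_succ_top (by omega), ih]
    ring

theorem NEG_exp' (m : ℕ) (k : ℕ) (hk : 1 ≤ k) (h : k * m ≤ 2 ^ k) (e : ℕ) (he : k ≤ e) :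
    e * m ≤ 2 ^ e := by
  induction e, he using Nat.le_induction with
  | base => exact h
  | succ e he ih =>
    have h1 : 2 ^ (e + 1) = 2 * 2 ^ e := pow_succ' 2 e
    have h2 : 1 * m ≤ e * m := Nat.mul_le_mul_right _ (by omega)
    rw [h1, add_mul]
    omega

theorem NEG_exp (e : ℕ) (he : 16 ≤ e) : e * 2 ^ 12 ≤ 2 ^ e :=
  NEG_exp' (2 ^ 12) 16 (by norm_num) (by norm_num) e he

/-- the exponents -/
theorem NEG_nat (e w : ℕ) (he : 16 ≤ e) (hw : 1 ≤ w) (hw2 : w ≤ 2 ^ (3 * e + 4)) :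
    8 * e * ((w + 1) * (2 * 2 ^ e * w ^ 2 + 1)) + 2 ^ (8 * e) + (w + 1) ≤
      (5 * e - 4) * (w * 2 ^ (8 * e - 1)) := by
  have hq : 2 ^ (8 * e) = 2 * 2 ^ (8 * e - 1) := by
    rw [← pow_succ']
    congr 1
    omega
  have h1 : w + 1 ≤ 2 * w := by omega
  have hpe : 1 ≤ 2 ^ e := Nat.one_le_two_pow
  have h2 : 2 * 2 ^ e * w ^ 2 + 1 ≤ 2 * (2 * 2 ^ e * w ^ 2) := by
    have : 1 ≤ 2 * 2 ^ e * w ^ 2 := by
      have : 0 < 2 * 2 ^ e * w ^ 2 := by positivity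
      omega
    omega
  have h3 : (w + 1) * (2 * 2 ^ e * w ^ 2 + 1) ≤ (2 * w) * (2 * (2 * 2 ^ e * w ^ 2)) :=
    Nat.mul_le_mul h1 h2
  have h4 : w ^ 2 ≤ 2 ^ (6 * e + 8) := by
    calc w ^ 2 ≤ (2 ^ (3 * e + 4)) ^ 2 := Nat.pow_le_pow_left hw2 2
      _ = 2 ^ (6 * e + 8) := by
        rw [← pow_mul]
        congr 1
        ring
  have h5 : (2 * w) * (2 * (2 * 2 ^ e * w ^ 2)) ≤ w * (8 * 2 ^ e * 2 ^ (6 * e + 8)) := by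
    have h6 : (2 * w) * (2 * (2 * 2 ^ e * w ^ 2)) = w * (8 * 2 ^ e * w ^ 2) := by ring
    rw [h6]
    exact Nat.mul_le_mul_left _ (Nat.mul_le_mul_left _ h4)
  have h7 : 8 * e * (w * (8 * 2 ^ e * 2 ^ (6 * e + 8))) = w * (e * 2 ^ 12 * (4 * (2 ^ e * 2 ^ (6 * e)))) := by
    rw [pow_add]
    ring
  have h8 : w * (e * 2 ^ 12 * (4 * (2 ^ e * 2 ^ (6 * e)))) ≤ w * (2 ^ e * (4 * (2 ^ e * 2 ^ (6 * e)))) :=
    Nat.mul_le_mul_left _ (Nat.mul_le_mul_right _ (NEG_exp e he))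
  have h9 : 2 ^ e * (4 * (2 ^ e * 2 ^ (6 * e))) = 8 * 2 ^ (8 * e - 1) := by
    have h10 : 2 ^ e * (4 * (2 ^ e * 2 ^ (6 * e))) = 4 * 2 ^ (8 * e) := by
      have h11 : 2 ^ (8 * e) = 2 ^ e * 2 ^ e * 2 ^ (6 * e) := by
        rw [← pow_add, ← pow_add]
        congr 1
        ring
      rw [h11]
      ring
    rw [h10, hq]
    ring
  have h12 : 8 * e * ((w + 1) * (2 * 2 ^ e * w ^ 2 + 1)) ≤ w * (8 * 2 ^ (8 * e - 1)) := by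
    calc 8 * e * ((w + 1) * (2 * 2 ^ e * w ^ 2 + 1))
        ≤ 8 * e * (w * (8 * 2 ^ e * 2 ^ (6 * e + 8))) := Nat.mul_le_mul_left _ (h3.trans h5)
      _ = w * (e * 2 ^ 12 * (4 * (2 ^ e * 2 ^ (6 * e)))) := h7
      _ ≤ w * (2 ^ e * (4 * (2 ^ e * 2 ^ (6 * e)))) := h8
      _ = w * (8 * 2 ^ (8 * e - 1)) := by rw [h9]
  have hh : 1 ≤ 2 ^ (8 * e - 1) := Nat.one_le_two_pow
  generalize 2 ^ (8 * e - 1) = h at *
  have h13 : w * (8 * h) + 2 * h + (w + 1) ≤ 12 * (w * h) := by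
    nlinarith
  have h14 : 12 * (w * h) ≤ (5 * e - 4) * (w * h) := Nat.mul_le_mul_right _ (by omega)
  rw [hq]
  omega

theorem NEG_term (e w : ℕ) (he : 16 ≤ e) (hw : 1 ≤ w) (hw2 : w ≤ 2 ^ (3 * e + 4)) :
    ((2 ^ (8 * e) : ℕ) : ℝ) ^ ((w + 1) * (2 * 2 ^ e * w ^ 2 + 1)) * 2 ^ (2 ^ (8 * e)) *
      (((2 ^ (2 * e) : ℕ) : ℝ) / ((2 ^ (7 * e - 4) : ℕ) : ℝ)) ^ (w * 2 ^ (8 * e - 1)) ≤
      (1 / 2 : ℝ) ^ (w + 1) := by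
  have h1 : ((2 ^ (2 * e) : ℕ) : ℝ) / ((2 ^ (7 * e - 4) : ℕ) : ℝ) = (1 / 2 : ℝ) ^ (5 * e - 4) := by
    have h2 : (2 : ℝ) ^ (7 * e - 4) = 2 ^ (2 * e) * 2 ^ (5 * e - 4) := by
      rw [← pow_add]
      congr 1
      omega
    push_cast
    rw [h2, div_mul_eq_div_div, div_self (by positivity), one_div, one_div, inv_pow]
  have h3 : ((2 ^ (8 * e) : ℕ) : ℝ) ^ ((w + 1) * (2 * 2 ^ e * w ^ 2 + 1)) =
      2 ^ (8 * e * ((w + 1) * (2 * 2 ^ e * w ^ 2 + 1))) := by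
    push_cast
    rw [← pow_mul]
  rw [h1, h3, ← pow_add, ← pow_mul]
  obtain ⟨r, hr⟩ := Nat.exists_eq_add_of_le (NEG_nat e w he hw hw2)
  rw [hr]
  generalize 8 * e * ((w + 1) * (2 * 2 ^ e * w ^ 2 + 1)) + 2 ^ (8 * e) = a
  have h4 : (2 : ℝ) ^ a * (1 / 2) ^ (a + (w + 1) + r) = (1 / 2) ^ (w + 1) * (1 / 2) ^ r := by
    rw [pow_add, pow_add]
    have h5 : (2 : ℝ) ^ a * (1 / 2) ^ a = 1 := by
      rw [← mul_pow]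
      norm_num
    linear_combination ((1 / 2 : ℝ) ^ (w + 1) * (1 / 2) ^ r) * h5
  rw [h4]
  have h6 : (1 / 2 : ℝ) ^ r ≤ 1 := pow_le_one₀ (by norm_num) (by norm_num)
  have h7 : (0 : ℝ) ≤ (1 / 2) ^ (w + 1) := by positivity
  nlinarith

theorem NEG (hNUB : NUB_stmt) : NEG_stmt := by
  intro K _ _ _ _ e ε he hK
  have hq : 2 ^ (8 * e) = 2 * 2 ^ (8 * e - 1) := by
    rw [← pow_succ']
    congr 1
    omega
  have hGp : 2 ^ (2 * e) * (16 * 2 ^ e) = 2 ^ (3 * e + 4) := by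
    have h1 : 2 ^ (3 * e + 4) = 2 ^ (2 * e) * 2 ^ e * 2 ^ 4 := by
      rw [← pow_add, ← pow_add]
      congr 1
      ring
    rw [h1]
    ring
  have hGL : 2 ^ (2 * e) ≤ 2 ^ (7 * e - 4) := Nat.pow_le_pow_right (by norm_num) (by omega)
  have hcJ : 2 * (2 * 2 ^ e * (2 ^ (2 * e) * (16 * 2 ^ e)) ^ 2) ≤ Fintype.card K := by
    rw [hGp, hK]
    have h1 : 2 * (2 * 2 ^ e * (2 ^ (3 * e + 4)) ^ 2) = 2 ^ (7 * e + 10) := by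
      rw [← pow_mul, ← pow_succ', ← pow_add, ← pow_succ']
      congr 1
      ring
    rw [h1]
    exact Nat.pow_le_pow_right (by norm_num) (by omega)
  have h1 := hNUB K (2 * 2 ^ e) (16 * 2 ^ e) (2 ^ (7 * e - 4)) (2 ^ (2 * e)) (2 ^ (8 * e - 1)) ε
    (hK.trans hq) hGL Nat.one_le_two_pow hcJ
  rw [hGp, hK] at h1
  generalize hΩ : Fintype.card (Fin (2 ^ (2 * e)) → (K × Fin (16 * 2 ^ e) → Fin (2 ^ (7 * e - 4)))) = Ω at *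
  have h2 : ∑ w ∈ Finset.Icc 1 (2 ^ (3 * e + 4)),
      ((2 ^ (8 * e) : ℕ) : ℝ) ^ ((w + 1) * (2 * 2 ^ e * w ^ 2 + 1)) * 2 ^ (2 ^ (8 * e)) *
        (((2 ^ (2 * e) : ℕ) : ℝ) / ((2 ^ (7 * e - 4) : ℕ) : ℝ)) ^ (w * 2 ^ (8 * e - 1)) * (Ω : ℝ) ≤
      (1 / 2) * (Ω : ℝ) := by
    rw [← Finset.sum_mul]
    apply mul_le_mul_of_nonneg_right _ (Nat.cast_nonneg Ω)
    calc ∑ w ∈ Finset.Icc 1 (2 ^ (3 * e + 4)),
      ((2 ^ (8 * e) : ℕ) : ℝ) ^ ((w + 1) * (2 * 2 ^ e * w ^ 2 + 1)) * 2 ^ (2 ^ (8 * e)) *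
        (((2 ^ (2 * e) : ℕ) : ℝ) / ((2 ^ (7 * e - 4) : ℕ) : ℝ)) ^ (w * 2 ^ (8 * e - 1))
        ≤ ∑ w ∈ Finset.Icc 1 (2 ^ (3 * e + 4)), (1 / 2 : ℝ) ^ (w + 1) :=
          Finset.sum_le_sum (fun w hw => by
            rw [Finset.mem_Icc] at hw
            exact NEG_term e w he hw.1 hw.2)
      _ = 1 / 2 - (1 / 2) ^ (2 ^ (3 * e + 4) + 1) := NEG_sum _
      _ ≤ 1 / 2 := by
        have : (0 : ℝ) ≤ (1 / 2) ^ (2 ^ (3 * e + 4) + 1) := by positivity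
        linarith
  have h3 := h1.trans h2
  have h4 : ((Nat.card {ω : Fin (2 ^ (2 * e)) → (K × Fin (16 * 2 ^ e) → Fin (2 ^ (7 * e - 4))) //
        SP (2 * 2 ^ e) (2 ^ (3 * e + 4)) (Ng ε ω)} : ℕ) : ℝ) * 2 ≤ (Ω : ℝ) := by linarith
  exact_mod_cast h4

end Pool.Agent.PB
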