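import Pool.Agent.helper34.PB.Good

set_option autoImplicit false

open Filter Topology

namespace Pool.Agent.helper34.PB

variable {𝕜 : Type} [RCLike 𝕜] {X : Type*} [NormedAddCommGroup X] [NormedSpace 𝕜 X]

/-- truncation of a coefficient sequence -/
noncomputable def trunc (c : ℕ → 𝕜) (N : ℕ) : ℕ →₀ 𝕜 :=
  Finsupp.onFinset (Finset.range N) (fun n => if n < N then c n else 0)
      (by intro n hn; by_contra h; rw [Finset.mem_range] at h; simp [h] at hn)

theorem trunc_apply (c : ℕ → 𝕜) (N n : ℕ) : trunc c N n = if n < N then c n else 0 := rfl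

theorem E_trunc {e : ℕ → X} (c : ℕ → 𝕜) (N : ℕ) : E e (trunc c N) = ∑ n ∈ Finset.range N, c n • e n := by
  rw [E_eq_sum (trunc c N) (Finset.range N) Finsupp.support_onFinset_subset]
  exact Finset.sum_congr rfl (fun n hn => by rw [trunc_apply, if_pos (Finset.mem_range.1 hn)])

/-- Every nonempty basic weakly open subset of `K` contains a nonempty coordinate box. -/
theorem exists_box {e : ℕ → X} {φ : ℕ → StrongDual 𝕜 X}
    (hexp : ∀ x : X, Tendsto (fun N => ∑ n ∈ Finset.range N, φ n x • e n) atTop (𝓝 x))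
    (K : Set X) (R : ℝ) (hR : 0 ≤ R) (h : Good e {a : ℕ →₀ 𝕜 | E e a ∈ K} R)
    (hproj : ∀ x ∈ K, ∀ N, E e (trunc (fun n => φ n x) N) ∈ K)
    {ι : Type*} (I : Finset ι) (f : ι → StrongDual 𝕜 X) (x₀ : X) (hx₀ : x₀ ∈ K) (ε : ℝ) (hε : 0 < ε) :
    ∃ (a : ℕ →₀ 𝕜) (N : ℕ) (r : ℝ), E e a ∈ K ∧ 0 < r ∧ (∀ n, N ≤ n → a n = 0) ∧
      ∀ y ∈ K, (∀ n < N, ‖φ n y - a n‖ < r) → ∀ i ∈ I, ‖f i (y - x₀)‖ < ε := by
  classical
  -- a finitely supported starting vector
  obtain ⟨m, hm⟩ : ∃ m : ℕ, ∀ i ∈ I, ‖f i (E e (trunc (fun n => φ n x₀) m)) - f i x₀‖ < ε / 2 := by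
    have h1 : ∀ i ∈ I, ∀ᶠ m : ℕ in atTop, ‖f i (E e (trunc (fun n => φ n x₀) m)) - f i x₀‖ < ε / 2 := by
      intro i _
      have h2 : Tendsto (fun m : ℕ => f i (E e (trunc (fun n => φ n x₀) m))) atTop (𝓝 (f i x₀)) := by
        simp only [E_trunc]
        exact ((f i).continuous.tendsto _).comp (hexp x₀)
      have h3 := Metric.tendsto_nhds.mp h2 (ε / 2) (by positivity)
      simpa [dist_eq_norm] using h3
    have h2 := (Filter.eventually_all_finset I).mpr h1
    exact h2.exists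
  obtain ⟨a, N, τ, ha1, ha2, hτ, haN, htail⟩ := exists_good hR h I f (fun i => f i x₀) (ε / 2) (ε / 4)
    (by positivity) (trunc (fun n => φ n x₀) m) (hproj x₀ hx₀ m) hm
  set F : ℝ := ∑ i ∈ I, ‖f i‖ with hF
  have hFnn : 0 ≤ F := Finset.sum_nonneg (fun i _ => norm_nonneg _)
  set T : ℝ := ∑ n ∈ Finset.range N, ‖e n‖ with hT
  have hTnn : 0 ≤ T := Finset.sum_nonneg (fun i _ => norm_nonneg _)
  obtain ⟨r1, hr1, hr1a⟩ : ∃ r1 : ℝ, 0 < r1 ∧ ∀ n, a n ≠ 0 → r1 ≤ ‖a n‖ * (τ / (1 + τ)) := by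
    rcases a.support.eq_empty_or_nonempty with h0 | h0
    · refine ⟨1, one_pos, fun n hn => ?_⟩
      have h1 := Finsupp.mem_support_iff.2 hn
      rw [h0] at h1
      exact absurd h1 (Finset.notMem_empty n)
    · obtain ⟨n0, hn0, hmin⟩ := a.support.exists_min_image (fun n => ‖a n‖) h0
      have h1 : 0 < ‖a n0‖ := norm_pos_iff.2 (Finsupp.mem_support_iff.1 hn0)
      refine ⟨‖a n0‖ * (τ / (1 + τ)), by positivity, fun n hn => ?_⟩
      have h2 := hmin n (Finsupp.mem_support_iff.2 hn)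
      gcongr
  set r : ℝ := min r1 (ε / (8 * (F + 1) * (T + 1))) with hr
  have hrpos : 0 < r := by rw [hr]; apply lt_min hr1; positivity
  have hrr1 : r ≤ r1 := min_le_left _ _
  have hr2 : F * (r * T) ≤ ε / 8 := by
    have h1 : r ≤ ε / (8 * (F + 1) * (T + 1)) := min_le_right _ _
    rw [le_div_iff₀ (by positivity)] at h1
    have h2 : 0 ≤ r * T := by positivity
    have h3 : 0 ≤ r * F := by positivity
    nlinarith
  refine ⟨a, N, r, ha1, hrpos, haN, ?_⟩
  intro y hy hclose i hi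
  set c : ℕ → 𝕜 := fun n => φ n y with hc
  have hysum : Tendsto (fun N => ∑ n ∈ Finset.range N, c n • e n) atTop (𝓝 y) := hexp y
  -- head part
  set b : ℕ →₀ 𝕜 := trunc c N with hbdef
  have hhead : ‖E e b - E e a‖ ≤ r * T := by
    have h1 : E e b - E e a = ∑ n ∈ Finset.range N, (c n - a n) • e n := by
      rw [hbdef, E_trunc, E_eq_sum a (Finset.range N) (by
        intro n hn
        rw [Finset.mem_range]
        by_contra h
        exact (Finsupp.mem_support_iff.mp hn) (haN n (not_lt.mp h))), ← Finset.sum_sub_distrib]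
      exact Finset.sum_congr rfl (fun n _ => by rw [sub_smul])
    rw [h1, hT, Finset.mul_sum]
    refine (norm_sum_le _ _).trans (Finset.sum_le_sum (fun n hn => ?_))
    rw [norm_smul]
    have := (hclose n (Finset.mem_range.mp hn)).le
    gcongr
  -- for each large t
  have hL : ∀ᶠ t : ℕ in atTop, ‖f i (∑ n ∈ Finset.range t, c n • e n) - f i x₀‖ ≤
      ‖f i (E e a) - f i x₀‖ + ε / 8 + ε / 4 := by
    filter_upwards [eventually_ge_atTop N] with t ht
    set z : ℕ →₀ 𝕜 := trunc c t - b with hz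
    have hbz : b + z = trunc c t := by
      rw [hz]; abel
    have hzlow : ∀ n < N, z n = 0 := by
      intro n hn
      rw [hz, Finsupp.sub_apply, hbdef, trunc_apply, trunc_apply, if_pos hn, if_pos (by omega), sub_self]
    have hzhigh : ∀ n, N ≤ n → z n = trunc c t n := by
      intro n hn
      rw [hz, Finsupp.sub_apply, hbdef, trunc_apply c N, if_neg (by omega), sub_zero]
    have h1 : ((1 / (1 + τ) : ℝ) : 𝕜) • (a + z) ∈ {a : ℕ →₀ 𝕜 | E e a ∈ K} := by
      refine solid h (trunc c t) (hproj y hy t) _ fun n => ?_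
      rw [Finsupp.smul_apply, Finsupp.add_apply, smul_eq_mul, norm_mul, RCLike.norm_ofReal, abs_of_pos (show 0 < 1 / (1 + τ) by positivity)]
      rcases lt_or_ge n N with hn | hn
      · rw [hzlow n hn, add_zero, trunc_apply, if_pos (by omega)]
        rcases eq_or_ne (a n) 0 with h0 | h0
        · rw [h0, norm_zero, mul_zero]
          exact norm_nonneg _
        · have h2 := hr1a n h0
          have h3 := hclose n hn
          have h4 : ‖a n‖ ≤ ‖c n‖ + r := by
            have h5 : ‖a n‖ ≤ ‖c n‖ + ‖c n - a n‖ := by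
              have h6 : a n = c n - (c n - a n) := by ring
              calc ‖a n‖ = ‖c n - (c n - a n)‖ := by rw [← h6]
                _ ≤ ‖c n‖ + ‖c n - a n‖ := norm_sub_le _ _
            have h7 : ‖c n - a n‖ < r := h3
            linarith
          have h5 : 1 / (1 + τ) * ‖a n‖ = ‖a n‖ - ‖a n‖ * (τ / (1 + τ)) := by
            field_simp
            ring
          rw [h5]
          linarith
      · rw [haN n hn, zero_add, hzhigh n hn]
        have h8 : 1 / (1 + τ) ≤ 1 := by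
          rw [div_le_one (by positivity)]; linarith
        calc _ ≤ 1 * ‖trunc c t n‖ := by gcongr
          _ = _ := one_mul _
    have h4 := htail z hzlow h1
    have h5 : ‖f i (E e z)‖ ≤ ε / 4 := by
      refine (norm_apply_le (f i) z).trans (le_trans ?_ h4)
      rw [pw_sum_weights]
      exact Finset.single_le_sum (f := fun i => pw (fun n => ‖f i (e n)‖) z)
        (fun j _ => pw_nonneg (fun n => norm_nonneg _) z) hi
    have h6 : f i (∑ n ∈ Finset.range t, c n • e n) - f i x₀ =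
        (f i (E e a) - f i x₀) + f i (E e b - E e a) + f i (E e z) := by
      rw [← E_trunc, ← hbz]
      unfold E; simp only [map_add, map_sub]; ring
    rw [h6]
    have h7 : ‖f i (E e b - E e a)‖ ≤ ε / 8 := by
      calc ‖f i (E e b - E e a)‖ ≤ ‖f i‖ * ‖E e b - E e a‖ := (f i).le_opNorm _
        _ ≤ F * (r * T) := by
          have h8 : ‖f i‖ ≤ F := Finset.single_le_sum (f := fun i => ‖f i‖) (fun i _ => norm_nonneg _) hi
          gcongr
        _ ≤ ε / 8 := hr2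
    calc _ ≤ ‖(f i (E e a) - f i x₀) + f i (E e b - E e a)‖ + ‖f i (E e z)‖ := norm_add_le _ _
      _ ≤ ‖f i (E e a) - f i x₀‖ + ‖f i (E e b - E e a)‖ + ‖f i (E e z)‖ := by
        gcongr; exact norm_add_le _ _
      _ ≤ _ := by linarith
  have hlim : Tendsto (fun t : ℕ => ‖f i (∑ n ∈ Finset.range t, c n • e n) - f i x₀‖) atTop
      (𝓝 ‖f i y - f i x₀‖) := by
    have h1 : Tendsto (fun t : ℕ => f i (∑ n ∈ Finset.range t, c n • e n)) atTop (𝓝 (f i y)) :=
      ((f i).continuous.tendsto _).comp hysum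
    exact (h1.sub_const _).norm
  have hfin := le_of_tendsto hlim hL
  rw [map_sub]
  have := ha2 i hi
  linarith

section set

variable {e : ℕ → X} {φ : ℕ → StrongDual 𝕜 X}

theorem phi_E (hbi : ∀ m n, φ m (e n) = if m = n then 1 else 0) (a : ℕ →₀ 𝕜) (n : ℕ) : φ n (E e a) = a n := by
  classical
  rw [E_eq_sum a (insert n a.support) (Finset.subset_insert _ _), map_sum]
  rw [Finset.sum_eq_single n]
  · rw [map_smul, hbi, if_pos rfl, smul_eq_mul, mul_one]
  · intro m _ hm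
    rw [map_smul, hbi, if_neg (Ne.symm hm), smul_zero]
  · intro h0
    exact absurd (Finset.mem_insert_self _ _) h0

theorem eq_E (hexp : ∀ x : X, Tendsto (fun N => ∑ n ∈ Finset.range N, φ n x • e n) atTop (𝓝 x)) (x : X) (a : ℕ →₀ 𝕜)
    (h : ∀ n, φ n x = a n) : x = E e a := by
  refine tendsto_nhds_unique (hexp x) (tendsto_const_nhds.congr' ?_)
  filter_upwards [eventually_ge_atTop (a.support.sup id + 1)] with N hN
  rw [E_eq_sum a (Finset.range N) (by
    intro n hn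
    rw [Finset.mem_range]
    have : n ≤ a.support.sup id := Finset.le_sup (f := id) hn
    omega)]
  exact Finset.sum_congr rfl fun n _ => by rw [h n]

/-- the finitely supported elements of `K` -/
theorem good_of (hexp : ∀ x : X, Tendsto (fun N => ∑ n ∈ Finset.range N, φ n x • e n) atTop (𝓝 x))
    (hbi : ∀ m n, φ m (e n) = if m = n then 1 else 0) (K : Set X) (R : ℝ) (hR : ∀ x ∈ K, ‖x‖ ≤ R)
    (hconv : ∀ x ∈ K, ∀ y ∈ K, ∀ t : ℝ, 0 ≤ t → t ≤ 1 → (t : 𝕜) • x + ((1 - t : ℝ) : 𝕜) • y ∈ K)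
    (hinv : ∀ x ∈ K, ∀ ε : ℕ → 𝕜, (∀ n, ‖ε n‖ = 1) → ∃ y ∈ K, ∀ n, φ n y = ε n * φ n x) :
    Good e {a : ℕ →₀ 𝕜 | E e a ∈ K} R where
  conv := by
    intro a ha b hb t ht0 ht1
    have h1 := hconv _ ha _ hb t ht0 ht1
    have h2 : E e ((t : 𝕜) • a + ((1 - t : ℝ) : 𝕜) • b) = (t : 𝕜) • E e a + ((1 - t : ℝ) : 𝕜) • E e b := by
      unfold E; rw [map_add, map_smul, map_smul]
    rw [← h2] at h1
    exact h1
  phase := by
    classical
    intro a ha b hb
    obtain ⟨y, hy, hy2⟩ := hinv _ ha (fun n => if a n = 0 then 1 else b n / a n) (by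
      intro n
      split_ifs with h0
      · exact norm_one
      · rw [norm_div, hb n, div_self (norm_ne_zero_iff.2 h0)])
    have h1 : y = E e b := by
      apply eq_E hexp
      intro n
      rw [hy2 n, phi_E hbi]
      split_ifs with h0
      · have h2 := hb n
        rw [h0, norm_zero, norm_eq_zero] at h2
        rw [h0, h2, mul_zero]
      · exact div_mul_cancel₀ _ h0
    rw [h1] at hy
    exact hy
  bdd := fun a ha => hR _ ha

theorem proj_of (hexp : ∀ x : X, Tendsto (fun N => ∑ n ∈ Finset.range N, φ n x • e n) atTop (𝓝 x)) (K : Set X)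
    (hconv : ∀ x ∈ K, ∀ y ∈ K, ∀ t : ℝ, 0 ≤ t → t ≤ 1 → (t : 𝕜) • x + ((1 - t : ℝ) : 𝕜) • y ∈ K)
    (hinv : ∀ x ∈ K, ∀ ε : ℕ → 𝕜, (∀ n, ‖ε n‖ = 1) → ∃ y ∈ K, ∀ n, φ n y = ε n * φ n x) (x : X) (hx : x ∈ K) (N : ℕ) :
    E e (trunc (fun n => φ n x) N) ∈ K := by
  obtain ⟨y, hy, hy2⟩ := hinv x hx (fun n => if n < N then 1 else -1) (by
    intro n
    split_ifs
    · exact norm_one
    · rw [norm_neg, norm_one])
  have h1 := hconv x hx y hy (1 / 2) (by norm_num) (by norm_num)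
  have h2 : ((1 / 2 : ℝ) : 𝕜) • x + ((1 - 1 / 2 : ℝ) : 𝕜) • y = E e (trunc (fun n => φ n x) N) := by
    apply eq_E hexp
    intro n
    rw [map_add, map_smul, map_smul, hy2 n, trunc_apply]
    split_ifs with h3
    · rw [smul_eq_mul, smul_eq_mul]
      push_cast
      ring
    · rw [smul_eq_mul, smul_eq_mul]
      push_cast
      ring
  rwa [h2] at h1

/-- every nonempty relatively weakly open subset of `K` contains a nonempty coordinate box -/
theorem cylinder (hexp : ∀ x : X, Tendsto (fun N => ∑ n ∈ Finset.range N, φ n x • e n) atTop (𝓝 x))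
    (hbi : ∀ m n, φ m (e n) = if m = n then 1 else 0) (K : Set X) (R : ℝ) (hR0 : 0 ≤ R) (hR : ∀ x ∈ K, ‖x‖ ≤ R)
    (hconv : ∀ x ∈ K, ∀ y ∈ K, ∀ t : ℝ, 0 ≤ t → t ≤ 1 → (t : 𝕜) • x + ((1 - t : ℝ) : 𝕜) • y ∈ K)
    (hinv : ∀ x ∈ K, ∀ ε : ℕ → 𝕜, (∀ n, ‖ε n‖ = 1) → ∃ y ∈ K, ∀ n, φ n y = ε n * φ n x)
    (V : Set (WeakSpace 𝕜 X)) (hV : IsOpen V) (x₀ : X) (hx₀ : x₀ ∈ K) (hxV : toWeakSpace 𝕜 X x₀ ∈ V) :
    ∃ (a : ℕ →₀ 𝕜) (N : ℕ) (r : ℝ), E e a ∈ K ∧ 0 < r ∧ (∀ n, N ≤ n → a n = 0) ∧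
      ∀ y ∈ K, (∀ n < N, ‖φ n y - a n‖ < r) → toWeakSpace 𝕜 X y ∈ V := by
  obtain ⟨O, hO, hOV⟩ := isOpen_induced_iff.mp hV
  have hmem : (fun f : StrongDual 𝕜 X => f x₀) ∈ O := by
    have h := hxV
    rw [← hOV] at h
    exact h
  obtain ⟨I, u, hu1, hu2⟩ := isOpen_pi_iff.mp hO _ hmem
  -- common radius
  obtain ⟨ε, hε, hεu⟩ : ∃ ε > 0, ∀ f ∈ I, ∀ t : 𝕜, ‖t - f x₀‖ < ε → t ∈ u f := by
    classical
    have h1 : ∀ f ∈ I, ∃ ε > 0, Metric.ball (f x₀) ε ⊆ u f := by
      intro f hf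
      exact Metric.isOpen_iff.mp (hu1 f hf).1 _ (hu1 f hf).2
    choose! ε hε1 hε2 using h1
    rcases I.eq_empty_or_nonempty with h | h
    · exact ⟨1, one_pos, by simp [h]⟩
    · obtain ⟨f₀, hf₀, hmin⟩ := I.exists_min_image ε h
      refine ⟨ε f₀, hε1 f₀ hf₀, ?_⟩
      intro f hf t ht
      apply hε2 f hf
      rw [Metric.mem_ball, dist_eq_norm]
      exact ht.trans_le (hmin f hf)
  obtain ⟨a, N, r, ha1, hr, haN, hbox⟩ := exists_box hexp K R hR0 (good_of hexp hbi K R hR hconv hinv)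
    (proj_of hexp K hconv hinv) I (fun f : StrongDual 𝕜 X => f) x₀ hx₀ ε hε
  refine ⟨a, N, r, ha1, hr, haN, fun y hy hclose => ?_⟩
  have h3 := hbox y hy hclose
  rw [← hOV]
  change (fun f : StrongDual 𝕜 X => f y) ∈ O
  apply hu2
  intro f hf
  apply hεu f hf
  have := h3 f hf
  rwa [map_sub] at this

end set

end Pool.Agent.helper34.PB
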