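import Mathlib

set_option autoImplicit false

/-!
# Countable weak pi-bases for bounded convex sets which are invariant under a change of phases of the coefficients

`E e a` is the combination of a finitely supported coefficient sequence. `S` is a set of such sequences: convex, invariant under
changes of the phases, and bounded. The key lemma `exists_good` finds, under finitely many weak conditions, an element of `S` all of
whose admissible tails are small for the given functionals.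
-/

open Filter Topology

namespace Pool.Agent.helper34.PB

variable {𝕜 : Type} [RCLike 𝕜] {X : Type*} [NormedAddCommGroup X] [NormedSpace 𝕜 X]

/-- synthesis of a finitely supported coefficient sequence -/
noncomputable abbrev E (e : ℕ → X) (a : ℕ →₀ 𝕜) : X := Finsupp.linearCombination 𝕜 e a

theorem E_eq_sum {e : ℕ → X} (a : ℕ →₀ 𝕜) (s : Finset ℕ) (hs : a.support ⊆ s) :
    E e a = ∑ n ∈ s, a n • e n := by
  unfold E
  rw [Finsupp.linearCombination_apply]
  exact Finsupp.sum_of_support_subset a hs (fun n v => v • e n) (by simp)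

/-- the weight seminorm -/
noncomputable def pw (w : ℕ → ℝ) (a : ℕ →₀ 𝕜) : ℝ := a.sum (fun n v => w n * ‖v‖)

theorem pw_eq_sum {w : ℕ → ℝ} (a : ℕ →₀ 𝕜) (s : Finset ℕ) (hs : a.support ⊆ s) :
    pw w a = ∑ n ∈ s, w n * ‖a n‖ := by
  unfold pw
  exact Finsupp.sum_of_support_subset a hs (fun n v => w n * ‖v‖) (by simp)

theorem norm_apply_le {e : ℕ → X} (f : StrongDual 𝕜 X) (a : ℕ →₀ 𝕜) :
    ‖f (E e a)‖ ≤ pw (fun n => ‖f (e n)‖) a := by
  rw [E_eq_sum a a.support (Finset.Subset.refl _), pw_eq_sum a a.support (Finset.Subset.refl _),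
    map_sum]
  refine (norm_sum_le _ _).trans (le_of_eq ?_)
  refine Finset.sum_congr rfl (fun n _ => ?_)
  rw [map_smul, smul_eq_mul, norm_mul, mul_comm]

theorem pw_sum_weights {ι : Type*} (I : Finset ι) (w : ι → ℕ → ℝ) (a : ℕ →₀ 𝕜) :
    pw (fun n => ∑ i ∈ I, w i n) a = ∑ i ∈ I, pw (w i) a := by
  simp only [pw_eq_sum a a.support (Finset.Subset.refl _)]
  rw [Finset.sum_comm]
  refine Finset.sum_congr rfl (fun n _ => ?_)
  rw [Finset.sum_mul]

theorem pw_nonneg {w : ℕ → ℝ} (hw : ∀ n, 0 ≤ w n) (a : ℕ →₀ 𝕜) : 0 ≤ pw w a := by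
  rw [pw_eq_sum a a.support (Finset.Subset.refl _)]
  exact Finset.sum_nonneg (fun n _ => mul_nonneg (hw n) (norm_nonneg _))

theorem pw_smul {w : ℕ → ℝ} (t : 𝕜) (a : ℕ →₀ 𝕜) : pw w (t • a) = ‖t‖ * pw w a := by
  rw [pw_eq_sum (t • a) a.support Finsupp.support_smul,
    pw_eq_sum a a.support (Finset.Subset.refl _), Finset.mul_sum]
  refine Finset.sum_congr rfl (fun n _ => ?_)
  simp only [Finsupp.smul_apply, smul_eq_mul, norm_mul]
  ring

/-- additivity on vectors with pairwise disjoint supports -/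
theorem pw_combo {w : ℕ → ℝ} (a y z : ℕ →₀ 𝕜)
    (h : ∀ n, ‖(a + (1/2 : 𝕜) • (y - z)) n‖ = ‖a n‖ + (1/2) * ‖y n‖ + (1/2) * ‖z n‖) :
    pw w (a + (1/2 : 𝕜) • (y - z)) = pw w a + (1/2) * pw w y + (1/2) * pw w z := by
  classical
  set s := (a + (1/2 : 𝕜) • (y - z)).support ∪ a.support ∪ y.support ∪ z.support
  rw [pw_eq_sum (a + (1/2 : 𝕜) • (y - z)) s (by intro n hn; simp only [s, Finset.mem_union]; tauto),
    pw_eq_sum a s (by intro n hn; simp only [s, Finset.mem_union]; tauto),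
    pw_eq_sum y s (by intro n hn; simp only [s, Finset.mem_union]; tauto),
    pw_eq_sum z s (by intro n hn; simp only [s, Finset.mem_union]; tauto),
    Finset.mul_sum, Finset.mul_sum, ← Finset.sum_add_distrib, ← Finset.sum_add_distrib]
  refine Finset.sum_congr rfl (fun n _ => ?_)
  rw [h n]; ring

/-- The conditions on a set of finitely supported coefficient sequences: convex, invariant under changes of the phases, bounded. -/
structure Good (e : ℕ → X) (S : Set (ℕ →₀ 𝕜)) (R : ℝ) : Prop where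
  conv : ∀ a ∈ S, ∀ b ∈ S, ∀ t : ℝ, 0 ≤ t → t ≤ 1 → (t : 𝕜) • a + ((1 - t : ℝ) : 𝕜) • b ∈ S
  phase : ∀ a ∈ S, ∀ b : ℕ →₀ 𝕜, (∀ n, ‖b n‖ = ‖a n‖) → b ∈ S
  bdd : ∀ a ∈ S, ‖E e a‖ ≤ R

theorem pw_le {e : ℕ → X} {S : Set (ℕ →₀ 𝕜)} {R : ℝ} (h : Good e S R) (f : StrongDual 𝕜 X) (a : ℕ →₀ 𝕜) (ha : a ∈ S) :
    pw (fun n => ‖f (e n)‖) a ≤ ‖f‖ * R := by
  classical
  let c : ℕ →₀ 𝕜 := Finsupp.onFinset a.support
    (fun n => if f (e n) = 0 then a n else (‖a n‖ : 𝕜) * ((starRingEnd 𝕜) (f (e n)) / (‖f (e n)‖ : 𝕜))) (by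
      intro n hn
      by_contra h
      apply hn
      simp only [Finsupp.mem_support_iff, not_not] at h
      simp [h])
  have hc : ∀ n, c n = if f (e n) = 0 then a n else (‖a n‖ : 𝕜) * ((starRingEnd 𝕜) (f (e n)) / (‖f (e n)‖ : 𝕜)) := fun n => rfl
  have h1 : c ∈ S := by
    refine h.phase a ha c fun n => ?_
    rw [hc n]
    split_ifs with h0
    · rfl
    · have h2 : ‖f (e n)‖ ≠ 0 := norm_ne_zero_iff.2 h0
      rw [norm_mul, norm_div, RCLike.norm_conj, RCLike.norm_ofReal, RCLike.norm_ofReal, abs_norm, abs_norm, div_self h2, mul_one]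
  have hsupp : c.support ⊆ a.support := Finsupp.support_onFinset_subset
  have h2 : ((pw (fun n => ‖f (e n)‖) a : ℝ) : 𝕜) = f (E e c) := by
    rw [E_eq_sum c a.support hsupp, pw_eq_sum a a.support (Finset.Subset.refl _), map_sum]
    push_cast
    refine Finset.sum_congr rfl (fun n _ => ?_)
    rw [map_smul, smul_eq_mul, hc n]
    split_ifs with h3
    · simp [h3]
    · have h4 : (‖f (e n)‖ : 𝕜) ≠ 0 := by
        rw [Ne, RCLike.ofReal_eq_zero]
        exact norm_ne_zero_iff.2 h3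
      have h5 : (starRingEnd 𝕜) (f (e n)) * f (e n) = (‖f (e n)‖ : 𝕜) ^ 2 := RCLike.conj_mul _
      field_simp
      linear_combination -(‖a n‖ : 𝕜) * h5
  have h3 : pw (fun n => ‖f (e n)‖) a ≤ ‖f (E e c)‖ := by
    rw [← h2, RCLike.norm_ofReal]
    exact le_abs_self _
  calc pw (fun n => ‖f (e n)‖) a ≤ ‖f (E e c)‖ := h3
    _ ≤ ‖f‖ * ‖E e c‖ := f.le_opNorm _
    _ ≤ ‖f‖ * R := by
        have := h.bdd c h1
        gcongr

/-- change of one coordinate -/
theorem change_one {e : ℕ → X} {S : Set (ℕ →₀ 𝕜)} {R : ℝ} (h : Good e S R) (c b : ℕ →₀ 𝕜) (hc : c ∈ S) (m : ℕ)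
    (hm : ‖b m‖ ≤ ‖c m‖) (hb : ∀ n, n ≠ m → b n = c n) : b ∈ S := by
  classical
  obtain ⟨w, t, hw, ht0, ht1, hv⟩ : ∃ (w : 𝕜) (t : ℝ), ‖w‖ = ‖c m‖ ∧ 0 ≤ t ∧ t ≤ 1 ∧ b m = (t : 𝕜) * w := by
    rcases eq_or_ne (b m) 0 with h0 | h0
    · exact ⟨c m, 0, rfl, le_rfl, zero_le_one, by simp [h0]⟩
    · have h1 : ‖b m‖ ≠ 0 := norm_ne_zero_iff.2 h0
      have h1' : 0 < ‖b m‖ := norm_pos_iff.2 h0
      have h2 : 0 < ‖c m‖ := h1'.trans_le hm
      refine ⟨((‖c m‖ / ‖b m‖ : ℝ) : 𝕜) * b m, ‖b m‖ / ‖c m‖, ?_, by positivity, (div_le_one h2).2 hm, ?_⟩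
      · rw [norm_mul, RCLike.norm_ofReal, abs_of_pos (by positivity), div_mul_cancel₀ _ h1]
      · rw [← mul_assoc, ← RCLike.ofReal_mul]
        have h3 : ‖b m‖ / ‖c m‖ * (‖c m‖ / ‖b m‖) = 1 := by
          field_simp
        rw [h3, RCLike.ofReal_one, one_mul]
  have h1 : c.update m w ∈ S := by
    refine h.phase c hc _ fun n => ?_
    rw [Finsupp.update_apply]
    split_ifs with h2
    · rw [h2, hw]
    · rfl
  have h2 : c.update m (-w) ∈ S := by
    refine h.phase c hc _ fun n => ?_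
    rw [Finsupp.update_apply]
    split_ifs with h2
    · rw [h2, norm_neg, hw]
    · rfl
  have h3 := h.conv _ h1 _ h2 ((1 + t) / 2) (by linarith) (by linarith)
  have h4 : ((((1 + t) / 2 : ℝ) : 𝕜) • c.update m w + ((1 - (1 + t) / 2 : ℝ) : 𝕜) • c.update m (-w)) = b := by
    ext n
    rw [Finsupp.add_apply, Finsupp.smul_apply, Finsupp.smul_apply, Finsupp.update_apply, Finsupp.update_apply]
    split_ifs with h5
    · rw [h5, hv, smul_eq_mul, smul_eq_mul]
      push_cast
      ring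
    · rw [hb n h5, ← add_smul, ← RCLike.ofReal_add]
      simp
  rwa [h4] at h3

/-- `S` is solid -/
theorem solid {e : ℕ → X} {S : Set (ℕ →₀ 𝕜)} {R : ℝ} (h : Good e S R) (a : ℕ →₀ 𝕜) (ha : a ∈ S) (b : ℕ →₀ 𝕜)
    (hb : ∀ n, ‖b n‖ ≤ ‖a n‖) : b ∈ S := by
  classical
  have key : ∀ s : Finset ℕ, ∀ b : ℕ →₀ 𝕜, (∀ n, ‖b n‖ ≤ ‖a n‖) → (∀ n, n ∉ s → b n = a n) → b ∈ S := by
    intro s
    induction s using Finset.induction_on with
    | empty =>
      intro b _ h2
      have : b = a := Finsupp.ext fun n => h2 n (Finset.notMem_empty n)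
      rwa [this]
    | insert m s hms ih =>
      intro b h1 h2
      have h3 : b.update m (a m) ∈ S := by
        apply ih
        · intro n
          rw [Finsupp.update_apply]
          split_ifs with h4
          · rw [h4]
          · exact h1 n
        · intro n hn
          rw [Finsupp.update_apply]
          split_ifs with h4
          · rw [h4]
          · exact h2 n (by rw [Finset.mem_insert]; tauto)
      refine change_one h _ b h3 m ?_ ?_
      · rw [Finsupp.update_apply, if_pos rfl]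
        exact h1 m
      · intro n hn
        rw [Finsupp.update_apply, if_neg hn]
  exact key (a.support ∪ b.support) b hb fun n hn => by
    rw [Finset.mem_union, Finsupp.mem_support_iff, Finsupp.mem_support_iff] at hn
    push Not at hn
    rw [hn.1, hn.2]

end Pool.Agent.helper34.PB
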