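import Pool.Agent.helper34.PB.Gen

set_option autoImplicit false

open Filter Topology

namespace Pool.Agent.helper34.PB

variable {𝕜 : Type} [RCLike 𝕜] {X : Type*} [NormedAddCommGroup X] [NormedSpace 𝕜 X]

/-- Key lemma. Given functionals `f i` and an element of `S` with `‖f i (E a) - c i‖ < δ`, there is such an `a` and `N, τ` such
that every finitely supported tail `z` beyond `N` with `a + z` in `(1 + τ) S` has small weight. -/
theorem exists_good {e : ℕ → X} {S : Set (ℕ →₀ 𝕜)} {R : ℝ} (hR : 0 ≤ R) (h : Good e S R) {ι : Type*} (I : Finset ι) (f : ι → StrongDual 𝕜 X)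
    (c : ι → 𝕜) (δ η : ℝ) (hη : 0 < η)
    (a₀ : ℕ →₀ 𝕜) (ha₀ : a₀ ∈ S) (ha₀' : ∀ i ∈ I, ‖f i (E e a₀) - c i‖ < δ) :
    ∃ (a : ℕ →₀ 𝕜) (N : ℕ) (τ : ℝ), a ∈ S ∧ (∀ i ∈ I, ‖f i (E e a) - c i‖ < δ) ∧ 0 < τ ∧
      (∀ n, N ≤ n → a n = 0) ∧
      ∀ z : ℕ →₀ 𝕜, (∀ n < N, z n = 0) → ((1 / (1 + τ) : ℝ) : 𝕜) • (a + z) ∈ S →
        pw (fun n => ∑ i ∈ I, ‖f i (e n)‖) z ≤ η := by
  classical
  set w : ℕ → ℝ := fun n => ∑ i ∈ I, ‖f i (e n)‖ with hw
  have hwnn : ∀ n, 0 ≤ w n := fun n => Finset.sum_nonneg (fun i _ => norm_nonneg _)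
  set C : ℝ := ∑ i ∈ I, ‖f i‖ * R with hC
  have hCnn : 0 ≤ C := Finset.sum_nonneg (fun i _ => mul_nonneg (norm_nonneg _) hR)
  have hpC : ∀ a : ℕ →₀ 𝕜, a ∈ S → pw w a ≤ C := by
    intro a ha
    rw [hw, pw_sum_weights]
    exact Finset.sum_le_sum (fun i _ => pw_le h (f i) a ha)
  -- the supremum
  set T : Set ℝ := (fun a => pw w a) '' {a : ℕ →₀ 𝕜 | a ∈ S ∧ ∀ i ∈ I, ‖f i (E e a) - c i‖ < δ}
    with hT
  have hTne : T.Nonempty := ⟨_, a₀, ⟨ha₀, ha₀'⟩, rfl⟩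
  have hTbdd : BddAbove T := by
    refine ⟨C, ?_⟩
    rintro _ ⟨a, ⟨ha, _⟩, rfl⟩
    exact hpC a ha
  set σ := sSup T with hσ
  have hσC : σ ≤ C := csSup_le hTne (by rintro _ ⟨a, ⟨ha, _⟩, rfl⟩; exact hpC a ha)
  have hle : ∀ a : ℕ →₀ 𝕜, a ∈ S → (∀ i ∈ I, ‖f i (E e a) - c i‖ < δ) → pw w a ≤ σ :=
    fun a h1 h2 => le_csSup hTbdd ⟨a, ⟨h1, h2⟩, rfl⟩
  obtain ⟨_, ⟨a, ⟨ha1, ha2⟩, rfl⟩, ha3⟩ : ∃ x ∈ T, σ - η / 2 < x :=
    exists_lt_of_lt_csSup hTne (by linarith)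
  simp only at ha3
  -- margin
  obtain ⟨ρ, hρ, hρ2⟩ : ∃ ρ : ℝ, 0 < ρ ∧ ∀ i ∈ I, ‖f i (E e a) - c i‖ + ρ < δ := by
    rcases I.eq_empty_or_nonempty with h | h
    · exact ⟨1, one_pos, by simp [h]⟩
    · obtain ⟨i₀, hi₀, hmin⟩ := I.exists_max_image (fun i => ‖f i (E e a) - c i‖) h
      refine ⟨(δ - ‖f i₀ (E e a) - c i₀‖) / 2, by linarith [ha2 i₀ hi₀], ?_⟩
      intro i hi
      have := hmin i hi
      have := ha2 i₀ hi₀
      linarith
  set M : ℕ := a.support.sup id + 1 with hM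
  have hMa : ∀ n, M ≤ n → a n = 0 := by
    intro n hn
    by_contra h
    have : n ≤ a.support.sup id := Finset.le_sup (f := id) (Finsupp.mem_support_iff.mpr h)
    omega
  set τ : ℝ := min (ρ / (2 * (C + 1))) (η / (4 * (C + 1))) with hτ
  have hτpos : 0 < τ := by
    rw [hτ]; apply lt_min <;> positivity
  have hτ1' : τ * C ≤ ρ / 2 := by
    have h1 : τ ≤ ρ / (2 * (C + 1)) := min_le_left _ _
    have h2 : τ * (2 * (C + 1)) ≤ ρ := by
      rwa [le_div_iff₀ (by positivity)] at h1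
    nlinarith
  have hτ2 : τ * C < η / 2 := by
    have h1 : τ ≤ η / (4 * (C + 1)) := min_le_right _ _
    have h2 : τ * (4 * (C + 1)) ≤ η := by
      rwa [le_div_iff₀ (by positivity)] at h1
    nlinarith
  by_contra hcon
  push Not at hcon
  -- for every N ≥ M a bad tail
  have hbad : ∀ N : ℕ, M ≤ N → ∃ z : ℕ →₀ 𝕜, (∀ n < N, z n = 0) ∧ ((1 / (1 + τ) : ℝ) : 𝕜) • (a + z) ∈ S ∧
      η < pw w z := by
    intro N hN
    exact hcon a N τ ha1 ha2 hτpos (fun n hn => hMa n (hN.trans hn))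
  choose! z hz1 hz2 hz3 using hbad
  have hnorm : ∀ k, M ≤ k → ‖E e (z k)‖ ≤ (2 + τ) * R := by
    intro k hk
    have h1 := h.bdd _ (hz2 k hk)
    have h2 : E e (((1 / (1 + τ) : ℝ) : 𝕜) • (a + z k)) = ((1 / (1 + τ) : ℝ) : 𝕜) • E e (a + z k) := by
      unfold E; rw [map_smul]
    rw [h2, norm_smul, RCLike.norm_ofReal, abs_of_pos (by positivity), div_mul_eq_mul_div, one_mul, div_le_iff₀ (by positivity)] at h1
    have h3 : E e (z k) = E e (a + z k) - E e a := by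
      unfold E; rw [map_add]; abel
    rw [h3]
    have h4 := norm_sub_le (E e (a + z k)) (E e a)
    have h5 := h.bdd a ha1
    nlinarith
  -- bounded vectors of values
  let v : ℕ → (I → 𝕜) := fun k i => f i.1 (E e (z (M + k)))
  set F : ℝ := ∑ i ∈ I, ‖f i‖ with hF
  have hFnn : 0 ≤ F := Finset.sum_nonneg (fun i _ => norm_nonneg _)
  have hbound : ∀ k, ‖v k‖ ≤ F * ((2 + τ) * R) := by
    intro k
    rw [pi_norm_le_iff_of_nonneg (by positivity)]
    intro i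
    calc ‖v k i‖ ≤ ‖f i.1‖ * ‖E e (z (M + k))‖ := (f i.1).le_opNorm _
      _ ≤ F * ((2 + τ) * R) := by
        have h1 := hnorm (M + k) (by omega)
        have h2 : ‖f i.1‖ ≤ F := Finset.single_le_sum (f := fun i => ‖f i‖) (fun i _ => norm_nonneg _) i.2
        gcongr
  obtain ⟨vlim, _, φ, hφ, hlim⟩ := tendsto_subseq_of_bounded (Metric.isBounded_closedBall (x := (0 : I → 𝕜)) (r := F * ((2 + τ) * R)))
    (x := v) (fun k => by simpa using hbound k)
  obtain ⟨K, hK⟩ := (Metric.tendsto_atTop.mp hlim) (ρ / 2) (by positivity)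
  set z1 := z (M + φ K) with hz1def
  set L : ℕ := z1.support.sup id + 1 with hL
  have hLz : ∀ n, L ≤ n → z1 n = 0 := by
    intro n hn
    by_contra h
    have : n ≤ z1.support.sup id := Finset.le_sup (f := id) (Finsupp.mem_support_iff.mpr h)
    omega
  set k2 := max K L with hk2
  set z2 := z (M + φ k2) with hz2def
  have hk2L : L ≤ φ k2 := (le_max_right K L).trans (hφ.id_le k2)
  have hdiff : ∀ i ∈ I, ‖f i (E e z1) - f i (E e z2)‖ < ρ := by
    intro i hi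
    have h1 := hK K le_rfl
    have h2 := hK k2 (le_max_left _ _)
    have h3 : dist (v (φ K)) (v (φ k2)) < ρ := by
      calc dist (v (φ K)) (v (φ k2)) ≤ dist (v (φ K)) vlim + dist (v (φ k2)) vlim :=
            dist_triangle_right _ _ _
        _ < ρ := by simp only [Function.comp] at h1 h2; linarith
    have h4 := (dist_le_pi_dist (v (φ K)) (v (φ k2)) ⟨i, hi⟩).trans_lt h3
    rw [dist_eq_norm] at h4
    exact h4
  -- disjointness facts
  have hz1low : ∀ n < M, z1 n = 0 := fun n hn => hz1 (M + φ K) (by omega) n (by omega)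
  have hz2low : ∀ n < M + L, z2 n = 0 := fun n hn => hz1 (M + φ k2) (by omega) n (by omega)
  have hcase : ∀ n, (z1 n = 0 ∧ z2 n = 0) ∨ (a n = 0 ∧ z2 n = 0) ∨ (a n = 0 ∧ z1 n = 0) := by
    intro n
    rcases lt_or_ge n M with h | h
    · left; exact ⟨hz1low n h, hz2low n (by omega)⟩
    · rcases lt_or_ge n L with h' | h'
      · right; left; exact ⟨hMa n h, hz2low n (by omega)⟩
      · right; right; exact ⟨hMa n h, hLz n h'⟩
  have hhalf : ‖(1/2 : 𝕜)‖ = 1/2 := by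
    rw [norm_div, norm_one, RCLike.norm_two]
  set b : ℕ →₀ 𝕜 := a + (1/2 : 𝕜) • (z1 - z2) with hb
  have hbw : pw w b = pw w a + (1/2) * pw w z1 + (1/2) * pw w z2 := by
    apply pw_combo
    intro n
    simp only [Finsupp.add_apply, Finsupp.smul_apply, Finsupp.sub_apply, smul_eq_mul]
    rcases hcase n with ⟨h1, h2⟩ | ⟨h1, h2⟩ | ⟨h1, h2⟩
    · simp [h1, h2]
    · rw [h1, h2, sub_zero, zero_add, norm_mul, hhalf]
      simp
    · rw [h1, h2, zero_sub, zero_add, norm_mul, hhalf, norm_neg]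
      simp
  set b' : ℕ →₀ 𝕜 := ((1 / (1 + τ) : ℝ) : 𝕜) • b with hb'
  have hEb' : E e b' = ((1 / (1 + τ) : ℝ) : 𝕜) • E e b := by
    rw [hb']; unfold E; rw [map_smul]
  have hb'1 : b' ∈ S := by
    have h3 := hz2 (M + φ K) (by omega)
    have h4 := hz2 (M + φ k2) (by omega)
    rw [← hz1def] at h3
    rw [← hz2def] at h4
    have h5 : ((1 / (1 + τ) : ℝ) : 𝕜) • (a - z2) ∈ S := by
      refine h.phase _ h4 _ fun n => ?_
      simp only [Finsupp.smul_apply, Finsupp.sub_apply, Finsupp.add_apply]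
      rcases hcase n with ⟨_, h2⟩ | ⟨h1, h2⟩ | ⟨h1, _⟩
      · simp [h2]
      · simp [h1, h2]
      · simp [h1]
    have h6 := h.conv _ h3 _ h5 (1 / 2) (by norm_num) (by norm_num)
    have h7 : b' = ((1 / 2 : ℝ) : 𝕜) • (((1 / (1 + τ) : ℝ) : 𝕜) • (a + z1)) + ((1 - 1 / 2 : ℝ) : 𝕜) • (((1 / (1 + τ) : ℝ) : 𝕜) • (a - z2)) := by
      rw [hb', hb]
      ext n
      simp only [Finsupp.smul_apply, Finsupp.sub_apply, Finsupp.add_apply, smul_eq_mul]
      push_cast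
      ring
    rw [h7]
    exact h6
  have hfa : ∀ i ∈ I, ‖f i (E e a)‖ ≤ C := by
    intro i hi
    calc ‖f i (E e a)‖ ≤ ‖f i‖ * ‖E e a‖ := (f i).le_opNorm _
      _ ≤ ‖f i‖ * R := by
        have := h.bdd a ha1
        gcongr
      _ ≤ C := Finset.single_le_sum (f := fun i => ‖f i‖ * R) (fun i _ => mul_nonneg (norm_nonneg _) hR) hi
  have hb'2 : ∀ i ∈ I, ‖f i (E e b') - c i‖ < δ := by
    intro i hi
    have hτ0 : ((1 + τ : ℝ) : 𝕜) ≠ 0 := by
      rw [Ne, RCLike.ofReal_eq_zero]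
      positivity
    have h1 : f i (E e b') - f i (E e a) =
        ((1 / (1 + τ) : ℝ) : 𝕜) * ((1/2) * (f i (E e z1) - f i (E e z2)) - (τ : 𝕜) * f i (E e a)) := by
      rw [hEb', map_smul, smul_eq_mul]
      have : f i (E e b) = f i (E e a) + (1/2) * (f i (E e z1) - f i (E e z2)) := by
        rw [hb]; unfold E
        simp only [map_add, map_sub, map_smul, smul_eq_mul]
      rw [this]
      push_cast at hτ0 ⊢
      field_simp
      ring
    have h2 : ‖f i (E e b') - f i (E e a)‖ < ρ := by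
      rw [h1, norm_mul, RCLike.norm_ofReal, abs_of_pos (show 0 < 1 / (1 + τ) by positivity)]
      have h3 : ‖(1/2) * (f i (E e z1) - f i (E e z2)) - (τ : 𝕜) * f i (E e a)‖ < ρ := by
        have h4 := hdiff i hi
        have h5 := hfa i hi
        have h6 : ‖(τ : 𝕜) * f i (E e a)‖ ≤ τ * C := by
          rw [norm_mul, RCLike.norm_ofReal, abs_of_pos hτpos]; gcongr
        have h7 : ‖(1/2) * (f i (E e z1) - f i (E e z2))‖ < ρ / 2 := by
          rw [norm_mul, hhalf]; linarith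
        calc _ ≤ ‖(1/2) * (f i (E e z1) - f i (E e z2))‖ + ‖(τ : 𝕜) * f i (E e a)‖ := norm_sub_le _ _
          _ < ρ := by linarith
      have h8 : 1 / (1 + τ) ≤ 1 := by
        rw [div_le_one (by positivity)]; linarith
      calc _ ≤ 1 * ‖(1/2) * (f i (E e z1) - f i (E e z2)) - (τ : 𝕜) * f i (E e a)‖ := by gcongr
        _ < ρ := by rw [one_mul]; exact h3
    have h9 := hρ2 i hi
    calc ‖f i (E e b') - c i‖ ≤ ‖f i (E e b') - f i (E e a)‖ + ‖f i (E e a) - c i‖ :=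
          norm_sub_le_norm_sub_add_norm_sub _ _ _
      _ < δ := by linarith
  have hfin := hle b' hb'1 hb'2
  rw [hb', pw_smul, RCLike.norm_ofReal, abs_of_pos (show 0 < 1 / (1 + τ) by positivity), hbw,
    div_mul_eq_mul_div, one_mul, div_le_iff₀ (by positivity)] at hfin
  have h3 := hz3 (M + φ K) (by omega)
  have h4 := hz3 (M + φ k2) (by omega)
  rw [← hz1def] at h3
  rw [← hz2def] at h4
  have h10 : τ * σ ≤ τ * C := by gcongr
  linarith

end Pool.Agent.helper34.PB
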